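import Mathlib

open Filter Topology

namespace Pool.Agent.Results.MP_7772c6_lc.Limit

/-- finite trees over a ranked alphabet -/
inductive Tr (S : Type) (rk : S → ℕ) : Type
  | node (a : S) (ts : Fin (rk a) → Tr S rk) : Tr S rk

/-- a bottom-up weighted tree automaton with weights in the natural numbers -/
structure WTA (S : Type) (rk : S → ℕ) (Q : Type) where
  mu : (a : S) → (Fin (rk a) → Q) → Q → ℕ
  lam : Q → ℕ

variable {S : Type} {rk : S → ℕ} {Q : Type}

/-- number of nodes -/
def size : Tr S rk → ℕ
  | .node _ ts => 1 + ∑ i, size (ts i)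

/-- a run assigns a state to every node -/
def Run (Q : Type) : Tr S rk → Type
  | .node _ ts => Q × ∀ i, Run Q (ts i)

/-- the state at the root -/
def root : (t : Tr S rk) → Run Q t → Q
  | .node _ _, r => r.1

/-- product of the transition weights over all nodes -/
def wt (A : WTA S rk Q) : (t : Tr S rk) → Run Q t → ℕ
  | .node a ts, r => A.mu a (fun i => root (ts i) (r.2 i)) r.1 * ∏ i, wt A (ts i) (r.2 i)

@[reducible] noncomputable def runFin [Fintype Q] : (t : Tr S rk) → Fintype (Run Q t)
  | .node _ ts => by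
    classical
    letI := fun i => runFin (ts i)
    exact inferInstanceAs (Fintype (Q × ∀ i, Run Q (ts i)))

noncomputable instance [Fintype Q] (t : Tr S rk) : Fintype (Run Q t) := runFin t

variable [Fintype Q] (A : WTA S rk Q)

/-- the value of the automaton: the sum of the weights of all runs -/
noncomputable def val (t : Tr S rk) : ℕ := ∑ r : Run Q t, wt A t r * A.lam (root t r)

/-- the growth function -/
noncomputable def growth (n : ℕ) : ℕ := sSup {x | ∃ t, size t ≤ n ∧ val A t = x}

/-- exponential growth -/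
def ExpGrowth : Prop := ∃ c₁ c₂ : ℝ, 0 < c₁ ∧ 0 < c₂ ∧
  ∀ᶠ n : ℕ in atTop, (2 : ℝ) ^ (c₁ * n) ≤ growth A n ∧ (growth A n : ℝ) ≤ (2 : ℝ) ^ (c₂ * n)

noncomputable def v : Tr S rk → Q → ℕ
  | .node a ts, q => ∑ p : Fin (rk a) → Q, A.mu a p q * ∏ i, v (ts i) (p i)

open Classical in
lemma v_eq (t : Tr S rk) : ∀ q, v A t q = ∑ r : Run Q t, if root t r = q then wt A t r else 0 := by
  induction t with
  | node a ts ih =>
    intro q
    have e : (∑ r : Run Q (.node a ts), if root (.node a ts) r = q then wt A (.node a ts) r else 0)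
        = ∑ r : Q × ∀ i, Run Q (ts i), if r.1 = q then
          A.mu a (fun i => root (ts i) (r.2 i)) r.1 * ∏ i, wt A (ts i) (r.2 i) else 0 := by
      congr
    rw [e, Fintype.sum_prod_type, Finset.sum_comm]
    simp only [Finset.sum_ite_eq', Finset.mem_univ, if_true]
    simp only [v, ih, Finset.prod_univ_sum, Fintype.piFinset_univ, Finset.mul_sum]
    rw [Finset.sum_comm]
    refine Finset.sum_congr rfl fun r _ => ?_
    rw [Finset.sum_eq_single (fun i => root (ts i) (r i))]
    · simp
    · intro p _ hp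
      obtain ⟨i, hi⟩ := Function.ne_iff.1 hp
      rw [Finset.prod_eq_zero (Finset.mem_univ i) (if_neg (Ne.symm hi)), mul_zero]
    · simp

lemma val_eq (t : Tr S rk) : val A t = ∑ q, A.lam q * v A t q := by
  classical
  simp only [val, v_eq, Finset.mul_sum]
  rw [Finset.sum_comm]
  refine Finset.sum_congr rfl fun r _ => ?_
  simp [mul_comm]

variable [DecidableEq Q]

/-- one-node context matrix -/
noncomputable def N1 (a : S) (i : Fin (rk a)) (ts : Fin (rk a) → Tr S rk) : Matrix Q Q ℕ :=
  fun q p => ∑ u : Fin (rk a) → Q, if u i = p then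
    A.mu a u q * ∏ j ∈ Finset.univ.erase i, v A (ts j) (u j) else 0

lemma N1_mul (a : S) (i : Fin (rk a)) (ts : Fin (rk a) → Tr S rk) (P : Q → Prop) [DecidablePred P]
    (q : Q) : ∑ p, (if P p then N1 A a i ts q p * v A (ts i) p else 0) =
      ∑ u : Fin (rk a) → Q, if P (u i) then A.mu a u q * ∏ j, v A (ts j) (u j) else 0 := by
  have : ∀ p, (if P p then N1 A a i ts q p * v A (ts i) p else 0) =
      ∑ u : Fin (rk a) → Q, if u i = p then
        (if P (u i) then A.mu a u q * ∏ j, v A (ts j) (u j) else 0) else 0 := by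
    intro p
    split_ifs with hp
    · rw [N1, Finset.sum_mul]
      refine Finset.sum_congr rfl fun u _ => ?_
      split_ifs with h1 h2
      · rw [← Finset.mul_prod_erase _ _ (Finset.mem_univ i), h1]; ring
      · exact (h2 (h1 ▸ hp)).elim
      · simp
    · symm
      refine Finset.sum_eq_zero fun u _ => ?_
      split_ifs with h1 h2
      · exact (hp (h1 ▸ h2)).elim
      · rfl
      · rfl
  simp only [this]
  rw [Finset.sum_comm]
  simp

/-- contexts, recorded by size and matrix -/
inductive Ctx : ℕ → Matrix Q Q ℕ → Prop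
  | one : Ctx 0 1
  | step {s M} (a : S) (i : Fin (rk a)) (ts : Fin (rk a) → Tr S rk) : Ctx s M →
      Ctx (s + (1 + ∑ j ∈ Finset.univ.erase i, size (ts j))) (M * N1 A a i ts)

variable {A}

lemma Ctx.mul {s s' M M'} (h : Ctx A s M) (h' : Ctx A s' M') : Ctx A (s + s') (M * M') := by
  induction h' with
  | one => simpa using h
  | step a i ts _ ih => rw [← add_assoc, ← Matrix.mul_assoc]; exact ih.step a i ts

lemma Ctx.plug {s M} (h : Ctx A s M) (t : Tr S rk) :
    ∃ t', size t' = s + size t ∧ ∀ q, v A t' q = ∑ p, M q p * v A t p := by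
  induction h generalizing t with
  | one => exact ⟨t, by simp, fun q => by simp [Matrix.one_apply]⟩
  | step a i ts _ ih =>
    rename_i s M _
    obtain ⟨t', h1, h2⟩ := ih (.node a (Function.update ts i t))
    have hN : N1 A a i (Function.update ts i t) = N1 A a i ts := by
      funext q p
      refine Finset.sum_congr rfl fun u _ => ?_
      rw [Finset.prod_congr rfl fun j hj => by
        rw [Function.update_of_ne (Finset.ne_of_mem_erase hj)]]
    refine ⟨t', ?_, fun q => ?_⟩
    · rw [h1, size, ← Finset.add_sum_erase _ _ (Finset.mem_univ i), Function.update_self,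
        Finset.sum_congr rfl fun j hj => by rw [Function.update_of_ne (Finset.ne_of_mem_erase hj)]]
      ring
    · rw [h2]
      simp only [Matrix.mul_apply, Finset.sum_mul]
      rw [Finset.sum_comm]
      refine Finset.sum_congr rfl fun p _ => ?_
      have := N1_mul A a i (Function.update ts i t) (fun _ => True) p
      simp only [if_true, hN, Function.update_self] at this
      rw [v, ← this, Finset.mul_sum]
      simp only [mul_assoc]

lemma Ctx.zero {s M} (h : Ctx A s M) (hs : s = 0) : M = 1 := by
  cases h with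
  | one => rfl
  | step a i ts _ => omega

lemma Ctx.pow {s M} (h : Ctx A s M) (k : ℕ) : Ctx A (k * s) (M ^ k) := by
  induction k with
  | zero => simpa using Ctx.one
  | succ k ih => rw [pow_succ, add_mul, one_mul]; exact ih.mul h

lemma le_mul_apply (M N : Matrix Q Q ℕ) (a b c : Q) : M a b * N b c ≤ (M * N) a c := by
  rw [Matrix.mul_apply]
  exact Finset.single_le_sum (f := fun j => M a j * N j c) (fun _ _ => Nat.zero_le _)
    (Finset.mem_univ b)

lemma pow_diag (M : Matrix Q Q ℕ) (q : Q) (k : ℕ) : M q q ^ k ≤ (M ^ k) q q := by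
  induction k with
  | zero => simp
  | succ k ih =>
    rw [pow_succ, pow_succ]
    exact (Nat.mul_le_mul_right _ ih).trans (le_mul_apply _ _ _ _ _)

variable (A)
def Reach (q p : Q) : Prop := ∃ s M, Ctx A s M ∧ 0 < M q p
def Useful (q : Q) : Prop := (∃ t, 0 < v A t q) ∧ ∃ q0, 0 < A.lam q0 ∧ Reach A q0 q
variable {A}

lemma Reach.refl (q : Q) : Reach A q q := ⟨0, 1, Ctx.one, by simp⟩
lemma Reach.trans {a b c : Q} (h : Reach A a b) (h' : Reach A b c) : Reach A a c := by
  obtain ⟨s, M, h1, h2⟩ := h
  obtain ⟨s', M', h1', h2'⟩ := h'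
  exact ⟨_, _, h1.mul h1', (Nat.mul_pos h2 h2').trans_le (le_mul_apply _ _ _ _ _)⟩

lemma reach_child {a : S} {ts : Fin (rk a) → Tr S rk} {u : Fin (rk a) → Q} {q : Q}
    (h : A.mu a u q * ∏ j, v A (ts j) (u j) ≠ 0) (i : Fin (rk a)) :
    Reach A q (u i) ∧ 0 < v A (ts i) (u i) := by
  rw [← Finset.mul_prod_erase _ _ (Finset.mem_univ i)] at h
  refine ⟨⟨_, _, Ctx.one.step a i ts, ?_⟩, Nat.pos_of_ne_zero fun h0 => h (by simp [h0])⟩
  rw [Matrix.one_mul, N1]
  refine lt_of_lt_of_le ?_ (Finset.single_le_sum (f := fun w : Fin (rk a) → Q => if w i = u i then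
    A.mu a w q * ∏ j ∈ Finset.univ.erase i, v A (ts j) (w j) else 0) (fun _ _ => Nat.zero_le _)
    (Finset.mem_univ u))
  rw [if_pos rfl]
  refine Nat.pos_of_ne_zero fun h0 => h ?_
  rw [mul_left_comm, h0, mul_zero]

variable [Fintype S]

omit [DecidableEq Q] in
lemma exW : ∃ W : ℕ, 1 ≤ W ∧ ∀ a q, ∑ u, A.mu a u q ≤ W := by
  refine ⟨1 + ∑ a, ∑ q, ∑ u, A.mu a u q, by omega, fun a q => ?_⟩
  have h1 := Finset.single_le_sum (f := fun q => ∑ u, A.mu a u q) (fun _ _ => Nat.zero_le _)
    (Finset.mem_univ q)
  have h2 := Finset.single_le_sum (f := fun a => ∑ q, ∑ u, A.mu a u q) (fun _ _ => Nat.zero_le _)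
    (Finset.mem_univ a)
  omega

omit [DecidableEq Q] in
lemma bdd (n : ℕ) : BddAbove {x | ∃ t, size t ≤ n ∧ val A t = x} := by
  obtain ⟨W, hW, hW'⟩ := exW (A := A)
  have : ∀ t : Tr S rk, ∀ q, v A t q ≤ W ^ size t := by
    intro t
    induction t with
    | node a ts ih =>
      intro q
      rw [v, size, pow_add, pow_one, ← Finset.prod_pow_eq_pow_sum]
      calc _ ≤ ∑ u : Fin (rk a) → Q, A.mu a u q * ∏ i, W ^ size (ts i) :=
            Finset.sum_le_sum fun u _ => Nat.mul_le_mul_left _
              (Finset.prod_le_prod' fun i _ => ih i _)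
        _ ≤ _ := by rw [← Finset.sum_mul]; exact Nat.mul_le_mul_right _ (hW' a q)
  refine ⟨∑ q, A.lam q * W ^ n, ?_⟩
  rintro _ ⟨t, ht, rfl⟩
  rw [val_eq]
  exact Finset.sum_le_sum fun q _ => Nat.mul_le_mul_left _
    ((this t q).trans (Nat.pow_le_pow_right hW ht))

omit [DecidableEq Q] in
lemma le_growth {t : Tr S rk} {n : ℕ} (h : size t ≤ n) : val A t ≤ growth A n :=
  le_csSup (bdd n) ⟨t, h, rfl⟩

/-- lower bound from a loop at a useful state -/
lemma lower {q : Q} (hq : Useful A q) {s M} (h : Ctx A s M) :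
    ∃ d, ∀ k n, d + k * s ≤ n → M q q ^ k ≤ growth A n := by
  obtain ⟨⟨t, ht⟩, q0, hl, s0, M0, h0, hp⟩ := hq
  refine ⟨s0 + size t, fun k n hn => ?_⟩
  obtain ⟨t', h1, h2⟩ := (h0.mul (h.pow k)).plug t
  refine le_trans ?_ (le_growth (t := t') (by omega))
  rw [val_eq]
  refine le_trans ?_ (Finset.single_le_sum (f := fun q => A.lam q * v A t' q)
    (fun _ _ => Nat.zero_le _) (Finset.mem_univ q0))
  refine le_trans ?_ (Nat.le_mul_of_pos_left _ hl)
  rw [h2]
  refine le_trans ?_ (Finset.single_le_sum (f := fun p => (M0 * M ^ k) q0 p * v A t p)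
    (fun _ _ => Nat.zero_le _) (Finset.mem_univ q))
  refine le_trans ?_ (Nat.le_mul_of_pos_right _ ht)
  exact (pow_diag M q k).trans ((Nat.le_mul_of_pos_left _ hp).trans (le_mul_apply _ _ _ _ _))

open Classical in
/-- upper bound -/
lemma upper {θ : ℝ} (hθ : 1 ≤ θ)
    (hl : ∀ q, Useful A q → ∀ s M, Ctx A s M → (M q q : ℝ) ≤ θ ^ s) (j : ℕ) :
    ∀ η, θ < η → ∃ K : ℝ, 1 ≤ K ∧ ∀ q, Useful A q →
      (Finset.univ.filter (Reach A q)).card ≤ j → ∀ t, (v A t q : ℝ) ≤ K * η ^ size t := by
  induction j with
  | zero =>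
    intro η _
    refine ⟨1, le_rfl, fun q _ hc => ?_⟩
    have := Finset.card_pos.2 ⟨q, Finset.mem_filter.2 ⟨Finset.mem_univ q, Reach.refl (A := A) q⟩⟩
    omega
  | succ j ih =>
    intro η hη
    obtain ⟨ζ, h1, h2⟩ := exists_between hη
    have hζ : 1 ≤ ζ := hθ.trans h1.le
    have hη0 : 0 < η := by linarith
    obtain ⟨K, hK, hI⟩ := ih ζ h1
    obtain ⟨W, hW, hW'⟩ := exW (A := A)
    obtain ⟨R, hR⟩ : ∃ R, ∀ a, rk a ≤ R := ⟨∑ a, rk a, fun a =>
      Finset.single_le_sum (fun _ _ => Nat.zero_le _) (Finset.mem_univ a)⟩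
    obtain ⟨D, hD⟩ : ∃ D : ℕ, ∀ q p, Reach A q p → ∃ s M, Ctx A s M ∧ 0 < M q p ∧ s ≤ D := by
      have : ∀ x : Q × Q, ∃ s, Reach A x.1 x.2 → ∃ M, Ctx A s M ∧ 0 < M x.1 x.2 := by
        intro x
        by_cases hx : Reach A x.1 x.2
        · obtain ⟨s, M, h⟩ := hx; exact ⟨s, fun _ => ⟨M, h⟩⟩
        · exact ⟨0, fun h => (hx h).elim⟩
      choose f hf using this
      refine ⟨∑ x, f x, fun q p h => ?_⟩
      obtain ⟨M, h1, h2⟩ := hf (q, p) h
      exact ⟨_, M, h1, h2, Finset.single_le_sum (fun _ _ => Nat.zero_le _) (Finset.mem_univ _)⟩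
    obtain ⟨C, hC⟩ : ∃ C : ℝ, ∀ n : ℕ, (n : ℝ) * ζ ^ n ≤ C * η ^ n := by
      have hr : ζ / η < 1 := (div_lt_one (by linarith)).2 h2
      have ht := tendsto_self_mul_const_pow_of_lt_one (r := ζ / η) (by positivity) hr
      obtain ⟨C, hC⟩ := ht.bddAbove_range
      refine ⟨C, fun n => ?_⟩
      have := hC ⟨n, rfl⟩
      simp only [div_pow] at this
      rw [← mul_div_assoc, div_le_iff₀ (by positivity)] at this
      exact this
    set B : ℝ := Fintype.card Q * ζ ^ D * (W * K ^ R) with hB
    have hB0 : 0 ≤ B := by positivity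
    refine ⟨max 1 (B * C), le_max_left _ _, fun q0 hq0 hc => ?_⟩
    have hM : ∀ s M, Ctx A s M → ∀ q, Reach A q q0 → (M q0 q : ℝ) ≤ ζ ^ D * ζ ^ s := by
      intro s M h q hq
      obtain ⟨s', M', h', hp, hs'⟩ := hD q q0 hq
      have := hl q0 hq0 _ _ (h.mul h')
      have h3 : M q0 q ≤ (M * M') q0 q0 :=
        (Nat.le_mul_of_pos_right _ hp).trans (le_mul_apply _ _ _ _ _)
      calc (M q0 q : ℝ) ≤ (M * M') q0 q0 := by exact_mod_cast h3
        _ ≤ θ ^ (s + s') := this
        _ ≤ ζ ^ (s + s') := by gcongr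
        _ ≤ ζ ^ (D + s) := pow_le_pow_right₀ hζ (by omega)
        _ = _ := pow_add _ _ _
    have key : ∀ t : Tr S rk, ∀ s M, Ctx A s M →
        ((∑ q, (if Reach A q q0 then M q0 q * v A t q else 0) : ℕ) : ℝ) ≤
          size t * B * ζ ^ (s + size t) := by
      intro t
      induction t with
      | node a ts iht =>
        intro s M h
        have hsplit : ∀ q, v A (.node a ts) q ≤
            (∑ u : Fin (rk a) → Q, if ∀ i, ¬ Reach A (u i) q0 then
              A.mu a u q * ∏ j, v A (ts j) (u j) else 0) +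
            ∑ i, ∑ p, (if Reach A p q0 then N1 A a i ts q p * v A (ts i) p else 0) := by
          intro q
          simp only [N1_mul]
          rw [v, Finset.sum_comm, ← Finset.sum_add_distrib]
          refine Finset.sum_le_sum fun u _ => ?_
          split_ifs with hu
          · omega
          · push Not at hu
            obtain ⟨i, hi⟩ := hu
            have := Finset.single_le_sum (f := fun i => if Reach A (u i) q0 then
              A.mu a u q * ∏ j, v A (ts j) (u j) else 0) (fun _ _ => Nat.zero_le _)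
              (Finset.mem_univ i)
            simp only [if_pos hi] at this
            omega
        have hexit : ∀ q, 0 < M q0 q →
            ((∑ u : Fin (rk a) → Q, if ∀ i, ¬ Reach A (u i) q0 then
              A.mu a u q * ∏ j, v A (ts j) (u j) else 0 : ℕ) : ℝ) ≤
              W * K ^ R * ζ ^ size (.node a ts) := by
          intro q hq
          have hq' : Reach A q0 q := ⟨s, M, h, hq⟩
          have : ∀ u : Fin (rk a) → Q, ((if ∀ i, ¬ Reach A (u i) q0 then
              A.mu a u q * ∏ j, v A (ts j) (u j) else 0 : ℕ) : ℝ) ≤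
              A.mu a u q * (K ^ R * ζ ^ size (.node a ts)) := by
            intro u
            by_cases h0 : A.mu a u q * ∏ j, v A (ts j) (u j) = 0
            · rw [h0]; simp only [ite_self, Nat.cast_zero]; positivity
            split_ifs with hu
            · push_cast
              gcongr
              calc ∏ j, (v A (ts j) (u j) : ℝ) ≤ ∏ j, K * ζ ^ size (ts j) := by
                    refine Finset.prod_le_prod (fun _ _ => by positivity) fun i _ => ?_
                    obtain ⟨r1, r2⟩ := reach_child h0 i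
                    obtain ⟨q1, hl1, hr1⟩ := hq0.2
                    refine hI _ ⟨⟨_, r2⟩, q1, hl1, (hr1.trans hq').trans r1⟩ ?_ _
                    have : Finset.univ.filter (Reach A (u i)) ⊂ Finset.univ.filter (Reach A q0) := by
                      refine ⟨fun x hx => ?_, fun hx => ?_⟩
                      · simp only [Finset.mem_filter, Finset.mem_univ, true_and] at hx ⊢
                        exact (hq'.trans r1).trans hx
                      · have := hx (Finset.mem_filter.2 ⟨Finset.mem_univ q0, Reach.refl q0⟩)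
                        exact hu i (Finset.mem_filter.1 this).2
                    have := Finset.card_lt_card this
                    omega
                _ = K ^ rk a * ζ ^ ∑ j, size (ts j) := by
                    rw [Finset.prod_mul_distrib, Finset.prod_pow_eq_pow_sum]; simp
                _ ≤ _ := by
                    gcongr
                    · exact hR a
                    · rw [size]; omega
            · simp only [Nat.cast_zero]; positivity
          push_cast [-Nat.cast_ite]
          refine (Finset.sum_le_sum fun u _ => this u).trans ?_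
          rw [← Finset.sum_mul, mul_assoc]
          gcongr
          exact_mod_cast hW' a q
        have hstep : ∀ i, ((∑ q, M q0 q * ∑ p,
            (if Reach A p q0 then N1 A a i ts q p * v A (ts i) p else 0) : ℕ) : ℝ) ≤
            size (ts i) * B * ζ ^ (s + size (.node a ts)) := by
          intro i
          have := iht i _ _ (h.step a i ts)
          have e1 : s + (1 + ∑ j ∈ Finset.univ.erase i, size (ts j)) + size (ts i) =
              s + size (.node a ts) := by
            rw [size, ← Finset.add_sum_erase _ _ (Finset.mem_univ i)]; ring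
          rw [e1] at this
          refine le_trans (le_of_eq ?_) this
          congr 1
          simp only [Finset.mul_sum]
          rw [Finset.sum_comm]
          refine Finset.sum_congr rfl fun p _ => ?_
          split_ifs
          · rw [Matrix.mul_apply, Finset.sum_mul]; simp only [mul_assoc]
          · simp
        have hsum : (∑ q, (if Reach A q q0 then M q0 q * v A (.node a ts) q else 0) : ℕ) ≤
            (∑ q, if Reach A q q0 then M q0 q * (∑ u : Fin (rk a) → Q,
              if ∀ i, ¬ Reach A (u i) q0 then A.mu a u q * ∏ j, v A (ts j) (u j) else 0) else 0) +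
            ∑ i, ∑ q, M q0 q * ∑ p,
              (if Reach A p q0 then N1 A a i ts q p * v A (ts i) p else 0) := by
          rw [Finset.sum_comm, ← Finset.sum_add_distrib]
          refine Finset.sum_le_sum fun q _ => ?_
          split_ifs
          · rw [← Finset.mul_sum, ← mul_add]; exact Nat.mul_le_mul_left _ (hsplit q)
          · exact Nat.zero_le _
        have hfirst : ((∑ q, if Reach A q q0 then M q0 q * (∑ u : Fin (rk a) → Q,
              if ∀ i, ¬ Reach A (u i) q0 then A.mu a u q * ∏ j, v A (ts j) (u j) else 0)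
              else 0 : ℕ) : ℝ) ≤ B * ζ ^ (s + size (.node a ts)) := by
          rw [Nat.cast_sum]
          refine (Finset.sum_le_card_nsmul _ _
            (ζ ^ D * ζ ^ s * (W * K ^ R * ζ ^ size (.node a ts))) fun q _ => ?_).trans ?_
          · split_ifs with hq
            · rcases Nat.eq_zero_or_pos (M q0 q) with h0 | h0
              · rw [h0]; simp only [zero_mul, Nat.cast_zero]; positivity
              · rw [Nat.cast_mul]
                exact mul_le_mul (hM s M h q hq) (hexit q h0) (by positivity) (by positivity)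
            · simp only [Nat.cast_zero]; positivity
          · rw [hB, pow_add, nsmul_eq_mul, Finset.card_univ]
            exact le_of_eq (by ring)
        refine le_trans (Nat.cast_le.2 hsum) ?_
        rw [Nat.cast_add, Nat.cast_sum (Finset.univ : Finset (Fin (rk a)))]
        refine (add_le_add hfirst (Finset.sum_le_sum fun i _ => hstep i)).trans (le_of_eq ?_)
        rw [← Finset.sum_mul, ← Finset.sum_mul]
        have : (size (.node a ts) : ℝ) = 1 + ∑ i, (size (ts i) : ℝ) := by
          rw [size]; push_cast; rfl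
        rw [this]; ring
    intro t
    have h3 := key t 0 1 Ctx.one
    have h4 : v A t q0 ≤ ∑ q, (if Reach A q q0 then (1 : Matrix Q Q ℕ) q0 q * v A t q else 0) := by
      have := Finset.single_le_sum (f := fun q => if Reach A q q0 then
        (1 : Matrix Q Q ℕ) q0 q * v A t q else 0) (fun _ _ => Nat.zero_le _) (Finset.mem_univ q0)
      simpa [Reach.refl] using this
    calc (v A t q0 : ℝ) ≤ _ := Nat.cast_le.2 h4
      _ ≤ _ := h3
      _ = B * (size t * ζ ^ size t) := by rw [zero_add]; ring
      _ ≤ B * (C * η ^ size t) := mul_le_mul_of_nonneg_left (hC _) hB0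
      _ ≤ _ := by
        rw [← mul_assoc]
        exact mul_le_mul_of_nonneg_right (le_max_right _ _) (by positivity)

theorem main (hA : ExpGrowth A) :
    ∃ ρ : ℝ, 1 < ρ ∧ Tendsto (fun n : ℕ => Real.log (growth A n) / n) atTop (𝓝 (Real.log ρ)) := by
  classical
  obtain ⟨c₁, c₂, hc₁, hc₂, hev⟩ := hA
  set x : ℕ → ℝ := fun n => Real.log (growth A n) / n with hx
  have hl2 : 0 < Real.log 2 := Real.log_pos one_lt_two
  have hb : ∀ᶠ n : ℕ in atTop, c₁ * Real.log 2 ≤ x n ∧ x n ≤ c₂ * Real.log 2 := by
    filter_upwards [hev, eventually_gt_atTop 0] with n hn hn0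
    have hn' : (0 : ℝ) < n := by exact_mod_cast hn0
    have hp : (0 : ℝ) < (2 : ℝ) ^ (c₁ * n) := by positivity
    have h1 := Real.log_le_log hp hn.1
    have h2 := Real.log_le_log (hp.trans_le hn.1) hn.2
    rw [Real.log_rpow two_pos] at h1 h2
    constructor
    · rw [hx, le_div_iff₀ hn']; linarith
    · rw [hx, div_le_iff₀ hn']; linarith
  have hbd : IsBoundedUnder (· ≥ ·) atTop x := ⟨c₁ * Real.log 2, hb.mono fun n h => h.1⟩
  have hbu : IsBoundedUnder (· ≤ ·) atTop x := ⟨c₂ * Real.log 2, hb.mono fun n h => h.2⟩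
  set L := liminf x atTop with hL
  have hL0 : 0 < L := lt_of_lt_of_le (by positivity)
    (le_liminf_of_le hbu.isCoboundedUnder_ge (hb.mono fun n h => h.1))
  have hloop : ∀ q, Useful A q → ∀ s M, Ctx A s M → (M q q : ℝ) ≤ Real.exp L ^ s := by
    intro q hq s M h
    rcases Nat.eq_zero_or_pos s with rfl | hs
    · rw [h.zero rfl]; simp
    rcases Nat.eq_zero_or_pos (M q q) with h0 | h0
    · rw [h0]; simp only [Nat.cast_zero]; positivity
    have hs' : (0 : ℝ) < s := by exact_mod_cast hs
    have hm1 : (1 : ℝ) ≤ M q q := by exact_mod_cast h0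
    set m := Real.log (M q q) with hm
    have hm0 : 0 ≤ m := Real.log_nonneg hm1
    obtain ⟨d, hd⟩ := lower hq h
    have hlim : Tendsto (fun n : ℕ => m / s - (d + s) * m / s / n) atTop (𝓝 (m / s - 0)) :=
      tendsto_const_nhds.sub (tendsto_const_div_atTop_nhds_zero_nat _)
    have hle : m / s ≤ L := by
      rw [sub_zero] at hlim
      rw [← hlim.liminf_eq]
      refine liminf_le_liminf ?_ hlim.isBoundedUnder_ge hbu.isCoboundedUnder_ge
      filter_upwards [eventually_ge_atTop (d + 1)] with n hn
      have hn' : (0 : ℝ) < n := by exact_mod_cast (by omega : 0 < n)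
      have h1 := hd ((n - d) / s) n (by have := Nat.div_mul_le_self (n - d) s; omega)
      have h2 : (((n - d) / s : ℕ) : ℝ) * m ≤ Real.log (growth A n) := by
        rw [hm, ← Real.log_pow]
        exact Real.log_le_log (by positivity) (by exact_mod_cast h1)
      have h3 : n ≤ ((n - d) / s) * s + (d + s) := by
        have := Nat.lt_div_mul_add (a := n - d) hs
        omega
      have h4 : (n : ℝ) ≤ (((n - d) / s : ℕ) : ℝ) * s + (d + s) := by exact_mod_cast h3
      rw [hx, le_div_iff₀ hn']
      refine le_trans ?_ h2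
      have : (m / s - (d + s) * m / s / n) * n = (n - (d + s)) * m / s := by field_simp
      rw [this, div_le_iff₀ hs']
      nlinarith
    rw [← Real.exp_nat_mul, ← Real.exp_log (show (0 : ℝ) < M q q by linarith), Real.exp_le_exp]
    rw [div_le_iff₀ hs'] at hle
    linarith
  refine ⟨Real.exp L, Real.one_lt_exp_iff.2 hL0, ?_⟩
  rw [Real.log_exp, tendsto_order]
  refine ⟨fun y hy => eventually_lt_of_lt_liminf hy hbd, fun y hy => ?_⟩
  obtain ⟨z, hz1, hz2⟩ := exists_between hy
  obtain ⟨K, hK, hU⟩ := upper (Real.one_le_exp hL0.le) hloop (Fintype.card Q) (Real.exp z)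
    (Real.exp_lt_exp.2 hz1)
  set K' : ℝ := (1 + ∑ q, (A.lam q : ℝ)) * K with hK'
  have hz0 : 1 ≤ Real.exp z := Real.one_le_exp (by linarith)
  have hlam : 0 ≤ ∑ q, (A.lam q : ℝ) := by positivity
  have hK'0 : 0 < K' := by positivity
  have hg : ∀ n, (growth A n : ℝ) ≤ K' * Real.exp z ^ n := by
    intro n
    rcases Set.eq_empty_or_nonempty {x | ∃ t, size t ≤ n ∧ val A t = x} with he | he
    · rw [growth, he]; simp only [csSup_empty, bot_eq_zero', Nat.cast_zero]; positivity
    obtain ⟨t, ht, hv⟩ := Nat.sSup_mem he (bdd n)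
    rw [growth, ← hv, val_eq]
    push_cast
    calc ∑ q, (A.lam q : ℝ) * v A t q ≤ ∑ q, (A.lam q : ℝ) * (K * Real.exp z ^ n) := by
          refine Finset.sum_le_sum fun q _ => ?_
          rcases Nat.eq_zero_or_pos (A.lam q) with h0 | h0
          · simp [h0]
          rcases Nat.eq_zero_or_pos (v A t q) with h1 | h1
          · rw [h1]; simp only [Nat.cast_zero, mul_zero]; positivity
          gcongr
          refine (hU q ⟨⟨t, h1⟩, q, h0, Reach.refl q⟩ (Finset.card_le_univ _) t).trans ?_
          gcongr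
      _ ≤ _ := by
          rw [← Finset.sum_mul, hK', mul_assoc]
          gcongr; linarith
  have hlim : Tendsto (fun n : ℕ => z + Real.log K' / n) atTop (𝓝 (z + 0)) :=
    tendsto_const_nhds.add (tendsto_const_div_atTop_nhds_zero_nat _)
  filter_upwards [hlim.eventually (gt_mem_nhds (show z + 0 < y by linarith)), hev,
    eventually_gt_atTop 0] with n h1 h2 hn0
  have hn' : (0 : ℝ) < n := by exact_mod_cast hn0
  refine lt_of_le_of_lt ?_ h1
  have hp : (0 : ℝ) < growth A n := lt_of_lt_of_le (by positivity) h2.1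
  have h3 := Real.log_le_log hp (hg n)
  rw [Real.log_mul hK'0.ne' (by positivity), Real.log_pow, Real.log_exp] at h3
  rw [hx, div_le_iff₀ hn', add_mul, div_mul_cancel₀ _ hn'.ne']
  linarith

theorem result (S : Type) [Fintype S] (rk : S → ℕ) (Q : Type) [Fintype Q] (A : WTA S rk Q)
    (hA : ExpGrowth A) :
    ∃ ρ : ℝ, 1 < ρ ∧
      Tendsto (fun n : ℕ => Real.log (growth A n) / n) atTop (𝓝 (Real.log ρ)) := by
  classical
  exact main hA

end Pool.Agent.Results.MP_7772c6_lc.Limit
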